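import Pool.Agent.Lib.AO.All3

set_option autoImplicit false

namespace Pool.Agent.Results.MP_171f82_an.AlgebraicPencil

/-- `σ x` is the second intersection point of the curve `C` with the line through `x` of direction
`u` (and `σ x = x` only if that line meets the curve in `x` alone). -/
def IsChordMap (C : Set (ℝ × ℝ)) (u : ℝ × ℝ) (σ : C → C) : Prop :=
  ∀ x : C, (∃ t : ℝ, (σ x : ℝ × ℝ) = x + t • u) ∧
    (σ x = x → ∀ t : ℝ, (x : ℝ × ℝ) + t • u ∈ C → t = 0)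

theorem result (K : Set (ℝ × ℝ)) (hK : IsCompact K) (hs : StrictConvex ℝ K)
    (hi : (interior K).Nonempty) (P : MvPolynomial (Fin 2) ℝ) (hP0 : P ≠ 0)
    (hP : ∀ x ∈ frontier K, MvPolynomial.eval ![x.1, x.2] P = 0)
    (U : Set ℝ) (hU : U.Infinite)
    (h : ∀ t ∈ U, ∃ n : ℝ × ℝ, n.2 - t * n.1 ≠ 0 ∧ ∃ δ : ℝ, 0 < δ ∧ ∀ s : ℝ, 0 < s → s < δ →
      ∀ σ₁ σ₂ : frontier K → frontier K, IsChordMap (frontier K) ((1, t) + s • n) σ₁ →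
        IsChordMap (frontier K) ((1, t) - s • n) σ₂ →
        ∀ (q : ℕ) (x : frontier K), (σ₂ ∘ σ₁)^[q] x = x → ∀ y, (σ₂ ∘ σ₁)^[q] y = y) :
    ∃ A : (ℝ × ℝ) ≃ᵃ[ℝ] (ℝ × ℝ), frontier K = A '' {p : ℝ × ℝ | p.1 ^ 2 + p.2 ^ 2 = 1} :=
  Pool.Agent.AO.all_MAIN2 K P U hK hs hi hP0 hP hU h

/-- Conjugacy to a rotation gives the property used in `result`. -/
theorem rotation_case (K : Set (ℝ × ℝ)) (hK : IsCompact K) (hs : StrictConvex ℝ K)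
    (hi : (interior K).Nonempty) (P : MvPolynomial (Fin 2) ℝ) (hP0 : P ≠ 0)
    (hP : ∀ x ∈ frontier K, MvPolynomial.eval ![x.1, x.2] P = 0)
    (U : Set ℝ) (hU : U.Infinite)
    (h : ∀ t ∈ U, ∃ n : ℝ × ℝ, n.2 - t * n.1 ≠ 0 ∧ ∃ δ : ℝ, 0 < δ ∧ ∀ s : ℝ, 0 < s → s < δ →
      ∀ σ₁ σ₂ : frontier K → frontier K, IsChordMap (frontier K) ((1, t) + s • n) σ₁ →
        IsChordMap (frontier K) ((1, t) - s • n) σ₂ →
        ∃ (g : frontier K ≃ₜ AddCircle (1 : ℝ)) (α : ℝ), ∀ x, g (σ₂ (σ₁ x)) = g x + α) :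
    ∃ A : (ℝ × ℝ) ≃ᵃ[ℝ] (ℝ × ℝ), frontier K = A '' {p : ℝ × ℝ | p.1 ^ 2 + p.2 ^ 2 = 1} := by
  refine result K hK hs hi P hP0 hP U hU fun t ht => ?_
  obtain ⟨n, hn, δ, hδ, h⟩ := h t ht
  refine ⟨n, hn, δ, hδ, fun s s0 s1 σ₁ σ₂ c1 c2 q x hx y => ?_⟩
  obtain ⟨g, α, hg⟩ := h s s0 s1 σ₁ σ₂ c1 c2
  have it : ∀ (k : ℕ) (z : frontier K),
      g ((σ₂ ∘ σ₁)^[k] z) = g z + k • (α : AddCircle (1 : ℝ)) := by
    intro k z
    induction k with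
    | zero => simp
    | succ k ih =>
      rw [Function.iterate_succ_apply', Function.comp_apply, hg, ih, succ_nsmul, add_assoc]
  have h0 := it q x
  rw [hx, left_eq_add] at h0
  apply g.injective
  rw [it, h0, add_zero]

end Pool.Agent.Results.MP_171f82_an.AlgebraicPencil
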