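import Pool.Agent.Lib.MP_171f82_an.NsRect

set_option autoImplicit false

namespace Pool.Agent.Results.MP_171f82_an.Parallelogram

open Pool.Agent.Lib.MP_171f82_an

/-- `σ x` is the second intersection point of the curve `C` with the line through `x` of direction
`u` (and `σ x = x` only if that line meets the curve in `x` alone). -/
def IsChordMap (C : Set (ℝ × ℝ)) (u : ℝ × ℝ) (σ : C → C) : Prop :=
  ∀ x : C, (∃ t : ℝ, (σ x : ℝ × ℝ) = x + t • u) ∧
    (σ x = x → ∀ t : ℝ, (x : ℝ × ℝ) + t • u ∈ C → t = 0)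

theorem result (K : Set (ℝ × ℝ)) (hK : IsCompact K) (hs : StrictConvex ℝ K)
    (hi : (interior K).Nonempty)
    (h2 : ∀ u : ℝ × ℝ, u ≠ 0 → ∃ v : ℝ × ℝ, u.1 * v.2 - u.2 * v.1 ≠ 0 ∧
      ∀ σu σv : frontier K → frontier K,
        IsChordMap (frontier K) u σu → IsChordMap (frontier K) v σv →
        ∀ x, σv (σu (σv (σu x))) = x) :
    ∃ A : (ℝ × ℝ) ≃ᵃ[ℝ] (ℝ × ℝ), frontier K = A '' {p : ℝ × ℝ | p.1 ^ 2 + p.2 ^ 2 = 1} := by
  refine ellipse_of_rect hK hs hi (rect_of_rp hK hs hi fun u hu => ?_)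
  obtain ⟨v, huv, h⟩ := h2 u hu
  have hv : v ≠ 0 := by
    rintro rfl
    exact huv (by simp)
  obtain ⟨σu, s1⟩ := exists_chordSpec K hu
  obtain ⟨σv, s2⟩ := exists_chordSpec K hv
  refine ⟨v, huv, rp_of_invol hK.isClosed hs huv s1 s2 fun x hx => ?_⟩
  exact congrArg Subtype.val (h (fun x => ⟨σu x, (s1 x x.2).1⟩) (fun x => ⟨σv x, (s2 x x.2).1⟩)
    (fun x => ⟨(s1 x x.2).2.1, fun e => (s1 x x.2).2.2 (congrArg Subtype.val e)⟩)
    (fun x => ⟨(s2 x x.2).2.1, fun e => (s2 x x.2).2.2 (congrArg Subtype.val e)⟩) ⟨x, hx⟩)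

/-- The question as posed (every double chord map is conjugate to a rotation), for every strictly
convex curve, is a special case: for `v` joining the two points with support direction `u` the map
swaps these two points, so the rotation has order two. -/
theorem rotation_case (K : Set (ℝ × ℝ)) (hK : IsCompact K) (hs : StrictConvex ℝ K)
    (hi : (interior K).Nonempty)
    (hrot : ∀ u v : ℝ × ℝ, u.1 * v.2 - u.2 * v.1 ≠ 0 → ∀ σu σv : frontier K → frontier K,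
      IsChordMap (frontier K) u σu → IsChordMap (frontier K) v σv →
      ∃ (h : frontier K ≃ₜ AddCircle (1 : ℝ)) (α : ℝ), ∀ x, h (σv (σu x)) = h x + α) :
    ∃ A : (ℝ × ℝ) ≃ᵃ[ℝ] (ℝ × ℝ), frontier K = A '' {p : ℝ × ℝ | p.1 ^ 2 + p.2 ^ 2 = 1} := by
  refine result K hK hs hi fun u hu => ?_
  have hc := hK.isClosed
  obtain ⟨T, hT⟩ := exists_supp hK (hi.mono interior_subset) u
  obtain ⟨B, hB⟩ := exists_supp hK (hi.mono interior_subset) (-u)
  have hw := (width_pos hi hu hT hB).ne'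
  have hv := diam_ne_zero hi hu hT hB
  refine ⟨B - T, hw, fun σu σv s1 s2 x => ?_⟩
  obtain ⟨h, α, hh⟩ := hrot u (B - T) hw σu σv s1 s2
  have fT := hT.mem_frontier hu
  have fB := hB.mem_frontier (neg_ne_zero.2 hu)
  have other : ∀ (y z : frontier K) (t : ℝ), t ≠ 0 → (z : ℝ × ℝ) = y + t • (B - T) → σv y = z := by
    intro y z t t0 e
    obtain ⟨⟨s, e1⟩, e2⟩ := s2 y
    have s0 : s ≠ 0 := by
      rintro rfl
      exact t0 (e2 (Subtype.ext (by simpa using e1)) t (e ▸ z.2))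
    exact Subtype.ext (by rw [e1, e, three_points hc hs hv s0 t0 y.2 (e1 ▸ (σv y).2) (e ▸ z.2)])
  have a1 : σu ⟨T, fT⟩ = ⟨T, fT⟩ := by
    obtain ⟨s, e⟩ := (s1 ⟨T, fT⟩).1
    have s0 := hT.line hs hu (hc.frontier_subset (e ▸ (σu ⟨T, fT⟩).2))
    exact Subtype.ext (by rw [e, s0]; simp)
  have a2 : σu ⟨B, fB⟩ = ⟨B, fB⟩ := by
    obtain ⟨s, e⟩ := (s1 ⟨B, fB⟩).1
    have s0 := hB.line_neg hs hu (hc.frontier_subset (e ▸ (σu ⟨B, fB⟩).2))
    exact Subtype.ext (by rw [e, s0]; simp)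
  have r1 := hh ⟨T, fT⟩
  have r2 := hh ⟨B, fB⟩
  rw [a1, other ⟨T, fT⟩ ⟨B, fB⟩ 1 one_ne_zero (by simp)] at r1
  rw [a2, other ⟨B, fB⟩ ⟨T, fT⟩ (-1) (by norm_num) (by simp), r1, add_assoc] at r2
  have hα : (α : AddCircle (1 : ℝ)) + α = 0 := by simpa using r2.symm
  exact h.injective (by rw [hh, hh, add_assoc, hα, add_zero])

end Pool.Agent.Results.MP_171f82_an.Parallelogram
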